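import Pool.Agent.Helper19.Jones.Main

/-!
# Jones' inequality holds for all graphs of treewidth at most three

If a finite graph `G` of treewidth at most three (planar or not) has no `k + 1` pairwise disjoint
cycles, then it has a feedback vertex set with at most `2 k` elements.
-/

namespace Pool.Agent.Results.MP_9a8595_co.TreewidthThree

open SimpleGraph

/-- The treewidth of `G` is at most `w`: there are a tree `T` and bags `β t`, `t` a node of `T`, with
at most `w + 1` elements such that every vertex lies in a bag, the ends of every edge lie in a common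
bag, and for every vertex `v` the nodes whose bag contains `v` induce a connected subgraph of `T`. -/
def TreewidthLE {V : Type} (G : SimpleGraph V) (w : ℕ) : Prop :=
  ∃ (ι : Type) (T : SimpleGraph ι) (β : ι → Finset V), T.IsTree ∧
    (∀ v, ∃ t, v ∈ β t) ∧
    (∀ u v, G.Adj u v → ∃ t, u ∈ β t ∧ v ∈ β t) ∧
    (∀ v, (T.induce {t | v ∈ β t}).Connected) ∧
    ∀ t, (β t).card ≤ w + 1

theorem result (V : Type) [Fintype V] (G : SimpleGraph V) (hG : TreewidthLE G 3) (k : ℕ)
    (hk : ¬ ∃ c : Fin (k + 1) → Σ v : V, G.Walk v v,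
      (∀ i, (c i).2.IsCycle) ∧
      ∀ i j, i ≠ j → ∀ w, w ∈ (c i).2.support → w ∉ (c j).2.support) :
    ∃ X : Finset V, X.card ≤ 2 * k ∧ (G.induce ((↑X : Set V)ᶜ)).IsAcyclic := by
  classical
  obtain ⟨ι, T, β, hT, -, hedge, hconn, hw⟩ := hG
  obtain ⟨par, dep, h⟩ := Pool.Agent.Helper19.Jones.exists_rooted hT
  have htd : Pool.Agent.Helper19.Jones.TD par dep (fun v => {t | v ∈ β t}) G := by
    refine ⟨fun v hv => h _ hv (hconn v).preconnected, fun t => ?_, fun u v huv => ?_⟩
    · have : {v | t ∈ (fun v => {t | v ∈ β t}) v} = (β t : Set V) := rfl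
      rw [this, Set.ncard_coe_finset]
      exact hw t
    · obtain ⟨t, h1, h2⟩ := hedge u v huv
      exact ⟨t, h1, h2⟩
  exact (htd.good _ rfl).final k hk

end Pool.Agent.Results.MP_9a8595_co.TreewidthThree
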